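import Pool.Agent.X137.Ech.Final

set_option autoImplicit false

/-!
# MP_3ccc78_al, Q1: intersections of echelon subgroups with finitely generated subgroups

In the free group `F` on `s, t` the subgroup `H = ⟨s, [t², s t s⁻¹]⟩` is echelon, the subgroup
`G = ⟨s², t, s t s⁻¹⟩` is finitely generated (of index two), and `H ∩ G` is not an echelon subgroup
of `G`.

The rank `rk`, the subgroups `Fl b i` generated by the first `i` elements of an ordered free basis
`b`, `InEchelonForm` and `IsEchelon` are defined in `Pool/Agent/X137/Ech/Defs.lean`.
-/

namespace Pool.Agent.Results.MP_3ccc78_al.NotEchelon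

open X137.Ech

/-- There are an echelon subgroup `H` and a finitely generated subgroup `G` of the free group of
rank two such that `H ∩ G` is not an echelon subgroup of `G`. -/
theorem result : ∃ H G : Subgroup (FreeGroup (Fin 2)),
    IsEchelon H ∧ G.FG ∧ ¬ IsEchelon (H.subgroupOf G) :=
  ⟨X137.Ech.H, X137.Ech.G, H_echelon, G_fg, K_not_echelon⟩

end Pool.Agent.Results.MP_3ccc78_al.NotEchelon
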